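import Pool.Agent.W424.OD.Cnt
import Pool.Agent.W801.OS.All
import Pool.Agent.W328.KZR.All
import Pool.Agent.W801.AV.All2

/-!
# The number of the accessible vertices of the largest critical cluster has order `n ^ (4/3)`

Critical bond percolation on `ℤ²` in the box `Λ_n = {0, …, n}²`: `F` is the set of open edges,
uniformly distributed on the subsets of `edges n` (`Plain.prob`), `Plain.box n` is the set of the
vertices, `Plain.cluster F v` the cluster of `v`, and `Plain.Largest n F v` says that this cluster
has the largest Euclidean diameter.  These definitions are those of the starting file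
`Pool/Agent/Results/MP_6bd702_pr/PerimeterExponent.lean` (in `Pool/Agent/H342R2/Per/Plain.lean`).

Upper bound (helper424): `C R ^ (-2/3)` for the probability of three arms (open, closed, closed) to
distance `R` (projects OU, OS, KZ, KZR).  Lower bound (project AV, helper801, with parts by many
helpers): the matching lower bound of the three-arm probability (project RS) in a box larger than
`Λ_n`; exploration of one cluster, the other clusters are small with positive probability; and the
second moment method with the upper bounds of the three-arm probabilities in annuli (project KI).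
-/

set_option autoImplicit false

namespace Pool.Agent.Results.MP_6bd702_pr.AccessibleVerticesOrder

open H342P

/-- The square lattice without the vertices of the set `C`: nearest neighbours, both outside `C`. -/
def avoidGraph (C : Set (ℤ × ℤ)) : SimpleGraph (ℤ × ℤ) :=
  SimpleGraph.fromRel (fun u w => (∃ e : Plain.Edge, Plain.fst e = u ∧ Plain.snd e = w) ∧
    u ∉ C ∧ w ∉ C)

/-- The vertex `w` of the cluster `C` of `v` is accessible: some lattice neighbour `p` of `w` is not
in `C` and is joined to a vertex `q` outside `Λ_n` by a lattice path (through open or closed edges)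
which avoids `C`. -/
def Accessible (n : ℕ) (F : Finset Plain.Edge) (v w : ℤ × ℤ) : Prop :=
  w ∈ Plain.cluster F v ∧ ∃ (e : Plain.Edge) (p q : ℤ × ℤ),
    ((Plain.fst e = w ∧ Plain.snd e = p) ∨ (Plain.fst e = p ∧ Plain.snd e = w)) ∧
    p ∉ Plain.cluster F v ∧ q ∉ Plain.box n ∧ (avoidGraph (Plain.cluster F v)).Reachable p q

open Classical in
/-- The set of the accessible vertices of the cluster of `v` in `Λ_n`. -/
noncomputable def accessible (n : ℕ) (F : Finset Plain.Edge) (v : ℤ × ℤ) : Finset (ℤ × ℤ) :=
  (Plain.box n).filter (fun w => Accessible n F v w)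

/-- (1) For every `δ > 0` there is `K` such that, for all `n ≥ 1`, with probability at least `1 - δ`
every cluster of largest Euclidean diameter in `Λ_n` has at most `K n ^ (4/3)` accessible vertices.
(2) There are `c, p > 0` and `n₀` such that, for all `n ≥ n₀`, with probability at least `p` every
cluster of largest Euclidean diameter in `Λ_n` has at least `c n ^ (4/3)` accessible vertices.
(3) There are `c, p > 0` and `n₀` such that, for all `n ≥ n₀` and all `1 ≤ m ≤ n`, with probability
at least `p`, for every cluster of largest Euclidean diameter in `Λ_n`, at least `c (n / m) ^ (4/3)`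
squares `[m i, m (i + 1)) × [m j, m (j + 1))` contain accessible vertices. -/
theorem result :
    (∀ δ : ℝ, 0 < δ → ∃ K : ℝ, 0 < K ∧ ∀ n : ℕ, 1 ≤ n →
      1 - δ ≤ Plain.prob n (fun F => ∀ v, Plain.Largest n F v →
        ((accessible n F v).card : ℝ) ≤ K * (n : ℝ) ^ (4 / 3 : ℝ))) ∧
    (∃ (c p : ℝ) (n₀ : ℕ), 0 < c ∧ 0 < p ∧ ∀ n : ℕ, n₀ ≤ n →
      p ≤ Plain.prob n (fun F => ∀ v, Plain.Largest n F v →
        c * (n : ℝ) ^ (4 / 3 : ℝ) ≤ ((accessible n F v).card : ℝ))) ∧
    (∃ (c p : ℝ) (n₀ : ℕ), 0 < c ∧ 0 < p ∧ ∀ n : ℕ, n₀ ≤ n → ∀ m : ℕ, 1 ≤ m → m ≤ n →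
      p ≤ Plain.prob n (fun F => ∀ v, Plain.Largest n F v →
        c * ((n : ℝ) / m) ^ (4 / 3 : ℝ) ≤
          (((accessible n F v).image (fun w => (w.1 / (m : ℤ), w.2 / (m : ℤ)))).card : ℝ))) := by
  refine ⟨?_, Pool.Agent.W801.AV.a_FIN, Pool.Agent.W801.AV.a_BOX⟩
  intro δ hδ
  obtain ⟨C, hC, h⟩ := Pool.Agent.W801.OS.t_HON Pool.Agent.W658.KZ.a_UR3
  obtain ⟨K, hK, h1⟩ := Pool.Agent.W424.OD.cnt hC.le (s := 2 / 3) (by norm_num) (by norm_num) h hδ
  refine ⟨K, hK, fun n hn => ?_⟩
  have h2 := h1 n hn
  have h3 := Plain.prob_not n (fun F => ∀ v, Plain.Largest n F v →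
      ((accessible n F v).card : ℝ) ≤ K * (n : ℝ) ^ (4 / 3 : ℝ))
  have h4 : (fun F : Finset Plain.Edge => ¬ ∀ v, Plain.Largest n F v →
      ((accessible n F v).card : ℝ) ≤ K * (n : ℝ) ^ (4 / 3 : ℝ)) =
      (fun F => ∃ v, Plain.Largest n F v ∧
        K * (n:ℝ) ^ (2 - 2 / 3 : ℝ) < ((Pool.Agent.W424.OD.accessible n F v).card : ℝ)) := by
    funext F
    have e1 : (2 - 2 / 3 : ℝ) = 4 / 3 := by norm_num
    rw [e1]
    simp only [not_forall, not_le, exists_prop]
    rfl
  rw [h4] at h3
  linarith

end Pool.Agent.Results.MP_6bd702_pr.AccessibleVerticesOrder
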