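import Pool.Agent.W822.PD.Fin
import Pool.Agent.W125.PD.Det
import Pool.Agent.W135.PD.Ite
import Pool.Agent.W320.PD.Big
import Pool.Agent.W320.PD.HB
import Pool.Agent.W320.PD.Low
import Pool.Agent.W320.PD.Rot
import Pool.Agent.W347.DPAA
import Pool.Agent.W469.PD.Cur
import Pool.Agent.W500.PD.UO
import Pool.Agent.W571.DPad
import Pool.Agent.W583.PDCen
import Pool.Agent.W597.PDBL
import Pool.Agent.W806.PD.Tri
import Pool.Agent.W924.PD.PAR
import Pool.Agent.W978.PD.UL

/-!
# Double points of the scaling limits of the outer perimeter of the largest critical cluster

Critical bond percolation on `ℤ²` in the box `Λ_n = {0, …, n}²`.  `Plain.edges n` is the set of the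
edges of `Λ_n` and `Plain.Largest n F v` says that the cluster of `v` has the largest Euclidean
diameter among the clusters of the configuration `F` (a set of open edges of the box).
`IsTrace n F v c` says that `c` is the closed lattice path tracing the boundary of the unbounded
component of the complement of the cluster of `v`, scaled by `1 / n`.  `Curve` is the space of
curves, with the distance modulo increasing reparametrisation, `c.path : C(unitInterval, ℂ)` is a
parametrisation of `c`, and `lawOf n f` is the law of `f F` when all sets `F` of open edges of the
box are equally likely.  These definitions are those of the starting file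
`Pool/Agent/Results/MP_6bd702_pr/LimitCurves.lean` (see there), which shows that weak limits exist.

Parts proved by helper125, helper135, helper320, helper469, helper500, helper583, helper597,
helper806, helper924, helper978, on the base of the starting files and of the double point library
of helper92 (with parts by helper52, helper347, helper571 and others).
-/

set_option autoImplicit false

namespace Pool.Agent.Results.MP_6bd702_pr.DoublePoints

open H342L H342T H342P.Plain MeasureTheory Filter Topology Pool.Agent.W822.PD

/-- The double points of the closed curve `c`: the points `z` which it visits at two times `s < t`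
without being constant on one of the two arcs `[s, t]`, `[0, s] ∪ [t, 1]` between them. -/
def doublePoints (c : Curve) : Set ℂ :=
  {z | ∃ s t : unitInterval, s < t ∧ c.path s = z ∧ c.path t = z ∧
    (∃ u : unitInterval, (s < u ∧ u < t) ∧ c.path u ≠ z) ∧
    ∃ u : unitInterval, (u < s ∨ t < u) ∧ c.path u ≠ z}

/-- The open unit square. -/
def openSquare : Set ℂ := {z | 0 < z.re ∧ z.re < 1 ∧ 0 < z.im ∧ z.im < 1}

theorem tri' : PD_TRI := Pool.Agent.W806.PDTri.tri Pool.Agent.W583.PDCen.cen Pool.Agent.W125.PD.det

theorem low' : PD_LOW := Pool.Agent.W320.PD.low Pool.Agent.W135.PD.t_ITE Pool.Agent.W320.PD.rot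

theorem par' : PD_PAR := Pool.Agent.W924.PD.par tri' low' Pool.Agent.W320.PD.big

/-- Let `C_n` be a cluster of largest Euclidean diameter (`sel` chooses one of them, by any rule) and
`γ_n` the closed lattice path tracing its outer boundary, divided by `n`.  If the law of `γ_n`
converges along some sequence of scales, then, almost surely with respect to the limit, the set of
the double points of the curve has Hausdorff dimension exactly `3/4`; those in the open unit square
already have this dimension, and those on the boundary of the square (if any) have dimension at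
most `2/3`. -/
theorem result (sel : (n : ℕ) → Finset Edge → ℤ × ℤ)
    (hsel : ∀ n F, 0 < n → F ⊆ edges n → Largest n F (sel n F))
    (γ : (n : ℕ) → Finset Edge → Curve)
    (hγ : ∀ n F, 0 < n → F ⊆ edges n → IsTrace n F (sel n F) (γ n F))
    (k : ℕ → ℕ) (hk : Tendsto k atTop atTop) (μ : ProbabilityMeasure Curve)
    (hμ : Tendsto (fun i => lawOf (k i) (γ (k i))) atTop (𝓝 μ)) :
    ∀ᵐ c : Curve ∂(μ : Measure Curve), dimH (doublePoints c) = 3 / 4 ∧
      dimH (doublePoints c ∩ openSquare) = 3 / 4 ∧ dimH (doublePoints c \ openSquare) ≤ 2 / 3 :=
  fin Pool.Agent.W500.PD.uo Pool.Agent.W347.DPAA.aa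
    (Pool.Agent.W571.DPad.ad Pool.Agent.W347.DPAA.aa) Pool.Agent.W978.PDUL.ul par'
    Pool.Agent.W469.PD.Cur.t_CUR Pool.Agent.W320.PD.HB.hb Pool.Agent.W597.PDBL.bl ⟨hsel, hγ⟩ hk hμ

end Pool.Agent.Results.MP_6bd702_pr.DoublePoints
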