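import Pool.Agent.W424.NC.BigFin

/-!
Critical bond percolation on the square lattice: the largest open cluster in the box of radius `n`
has about `n^(91/48)` vertices.
-/

namespace Pool.Agent.Results.MP_6bd702_pr.LargestCluster

open MeasureTheory

/-- The square lattice: two points of `ℤ²` are adjacent when they differ by one in exactly one
coordinate. -/
def Z2 : SimpleGraph (ℤ × ℤ) where
  Adj u v := |u.1 - v.1| + |u.2 - v.2| = 1
  symm := ⟨fun u v h => by rw [abs_sub_comm v.1, abs_sub_comm v.2]; exact h⟩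
  loopless := ⟨fun u h => by simp at h⟩

/-- Critical bond percolation: every edge of the square lattice is open (`true`) with
probability `1/2`, independently of the other edges. -/
noncomputable def crit : Measure (Z2.edgeSet → Bool) :=
  Measure.infinitePi (fun _ => ProbabilityTheory.bernoulliMeasure true false
    ⟨1/2, by norm_num, by norm_num⟩)

/-- The graph of the open edges with both ends in the box `[-n,n]²`. -/
def boxGraph (n : ℕ) (ω : Z2.edgeSet → Bool) : SimpleGraph (ℤ × ℤ) :=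
  SimpleGraph.fromEdgeSet {e | (∃ h : e ∈ Z2.edgeSet, ω ⟨e, h⟩ = true) ∧
    ∀ v ∈ e, |v.1| ≤ n ∧ |v.2| ≤ n}

/-- The open cluster of `u` in the box `[-n,n]²`. -/
def boxCluster (n : ℕ) (ω : Z2.edgeSet → Bool) (u : ℤ × ℤ) : Set (ℤ × ℤ) :=
  {v | (boxGraph n ω).Reachable u v}

/-- The number of vertices of the largest open cluster in the box `[-n,n]²`. -/
noncomputable def largest (n : ℕ) (ω : Z2.edgeSet → Bool) : ℕ :=
  (Finset.Icc (-(n:ℤ)) n ×ˢ Finset.Icc (-(n:ℤ)) n).sup (fun u => (boxCluster n ω u).ncard)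

open H974 in
theorem boxGraph_adj (n : ℕ) (ω : Z2.edgeSet → Bool) (u v : ℤ × ℤ) :
    (boxGraph n ω).Adj u v ↔ H974.Adj ((opn ω) ∩ ↑(boxE n)) u v := by
  have inbox : ∀ e : Edg, e ∈ boxE n ↔
      ((|(src e).1| ≤ (n:ℤ) ∧ |(src e).2| ≤ (n:ℤ)) ∧
        (|(tgt e).1| ≤ (n:ℤ) ∧ |(tgt e).2| ≤ (n:ℤ))) := by
    unfold boxE
    rintro ⟨x, y, _ | _⟩
    · rw [mem_RE_false, src_mk, tgt_false]
      simp only [abs_le]
      omega
    · rw [mem_RE_true, src_mk, tgt_true]
      simp only [abs_le]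
      omega
  have inb2 : ∀ a b : ℤ × ℤ, (∀ w ∈ s(a, b), |w.1| ≤ (n:ℤ) ∧ |w.2| ≤ (n:ℤ)) ↔
      ((|a.1| ≤ (n:ℤ) ∧ |a.2| ≤ (n:ℤ)) ∧ (|b.1| ≤ (n:ℤ) ∧ |b.2| ≤ (n:ℤ))) := by
    intro a b
    constructor
    · intro h; exact ⟨h a (Sym2.mem_mk_left _ _), h b (Sym2.mem_mk_right _ _)⟩
    · rintro ⟨h1, h2⟩ w hw
      rcases Sym2.mem_iff.mp hw with rfl | rfl
      · exact h1
      · exact h2
  unfold boxGraph
  rw [SimpleGraph.fromEdgeSet_adj]
  constructor
  · rintro ⟨⟨⟨h, hω⟩, hbox⟩, -⟩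
    obtain ⟨e, he⟩ := adj_edge (show sqLattice.Adj u v from (SimpleGraph.mem_edgeSet _).mp h)
    have hs : s(src e, tgt e) = s(u, v) := by
      rcases he with ⟨h1, h2⟩ | ⟨h1, h2⟩
      · rw [h1, h2]
      · rw [h1, h2]; exact Sym2.eq_swap
    have ht : toE e = ⟨s(u, v), h⟩ := Subtype.ext hs
    refine ⟨e, ⟨?_, ?_⟩, he⟩
    · show ω (toE e) = true
      rw [ht]; exact hω
    · rw [Finset.mem_coe, inbox, ← inb2, hs]; exact hbox
  · rintro ⟨e, ⟨he, hb⟩, hcase⟩
    have hs : s(u, v) = s(src e, tgt e) := by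
      rcases hcase with ⟨h1, h2⟩ | ⟨h1, h2⟩
      · rw [h1, h2]
      · rw [h1, h2]; exact Sym2.eq_swap
    refine ⟨?_, ?_⟩
    · show (∃ h : s(u, v) ∈ Z2.edgeSet, ω ⟨s(u, v), h⟩ = true) ∧
        ∀ w ∈ s(u, v), |w.1| ≤ (n:ℤ) ∧ |w.2| ≤ (n:ℤ)
      rw [hs]
      refine ⟨⟨edge_mem e, he⟩, ?_⟩
      rw [inb2, ← inbox]; exact Finset.mem_coe.mp hb
    · rintro rfl
      exact Adj_irrefl (⟨e, he, hcase⟩ : H974.Adj (opn ω) u u)

open H974 in
theorem boxGraph_reach (n : ℕ) (ω : Z2.edgeSet → Bool) (u v : ℤ × ℤ) :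
    (boxGraph n ω).Reachable u v ↔ Reach ((opn ω) ∩ ↑(boxE n)) u v := by
  rw [SimpleGraph.reachable_iff_reflTransGen]
  have : (boxGraph n ω).Adj = H974.Adj ((opn ω) ∩ ↑(boxE n)) := by
    funext u v
    exact propext (boxGraph_adj n ω u v)
  rw [this]
  rfl

open H974 in
theorem reach_mem_box {n : ℕ} {G : Set Edg} {u v : ℤ × ℤ} (hu : u ∈ boxV n)
    (h : Reach (G ∩ ↑(boxE n)) u v) : v ∈ boxV n := by
  induction h with
  | refl => exact hu
  | tail _ hs _ =>
    obtain ⟨⟨x, y, b⟩, ⟨-, he⟩, hcase⟩ := hs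
    rw [Finset.mem_coe] at he
    unfold boxE at he
    unfold boxV
    simp only [Finset.mem_product, Finset.mem_Icc]
    cases b
    · rw [mem_RE_false] at he
      simp only [src_mk, tgt_false] at hcase
      rcases hcase with ⟨-, h4⟩ | ⟨h4, -⟩
      · rw [← h4]; simp only; omega
      · rw [← h4]; simp only; omega
    · rw [mem_RE_true] at he
      simp only [src_mk, tgt_true] at hcase
      rcases hcase with ⟨-, h4⟩ | ⟨h4, -⟩
      · rw [← h4]; simp only; omega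
      · rw [← h4]; simp only; omega

open H974 in
theorem le_largest_iff {n m : ℕ} (ω : Z2.edgeSet → Bool) :
    m ≤ largest n ω ↔ Pool.Agent.W424.NC.BigE n m (FF (boxE n) ω) := by
  have hG : (↑(FF (boxE n) ω) : Set Edg) ∩ ↑(boxE n) = (opn ω) ∩ ↑(boxE n) := by
    have h0 : (↑(FF (boxE n) ω) : Set Edg) = (opn ω) ∩ ↑(boxE n) := FF_coe (boxE n) ω
    rw [h0, Set.inter_assoc, Set.inter_self]
  have hfin : ∀ u ∈ boxV n, (boxCluster n ω u) ⊆ ↑(boxV n) := by
    intro u hu v hv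
    exact Finset.mem_coe.mpr (reach_mem_box hu ((boxGraph_reach n ω u v).mp hv))
  constructor
  · intro h
    have hne : (boxV n).Nonempty := by
      refine ⟨(0, 0), ?_⟩
      unfold boxV
      simp only [Finset.mem_product, Finset.mem_Icc]
      omega
    obtain ⟨u, hu, heq⟩ := Finset.exists_mem_eq_sup (boxV n) hne
      (fun u => (boxCluster n ω u).ncard)
    have h2 : m ≤ (boxCluster n ω u).ncard := by
      have : largest n ω = (boxCluster n ω u).ncard := heq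
      rw [← this]
      exact h
    have hf : (boxCluster n ω u).Finite := (Finset.finite_toSet (boxV n)).subset (hfin u hu)
    refine ⟨u, hu, hf.toFinset, ?_, ?_⟩
    · rw [← Set.ncard_eq_toFinset_card _ hf]
      exact h2
    · intro v hv
      rw [Set.Finite.mem_toFinset] at hv
      rw [hG]
      exact ⟨Finset.mem_coe.mp (hfin u hu hv), (boxGraph_reach n ω u v).mp hv⟩
  · rintro ⟨u, hu, A, hA, hr⟩
    rw [hG] at hr
    have hf : (boxCluster n ω u).Finite := (Finset.finite_toSet (boxV n)).subset (hfin u hu)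
    have h1 : (↑A : Set (ℤ × ℤ)) ⊆ boxCluster n ω u := fun v hv =>
      (boxGraph_reach n ω u v).mpr (hr v (Finset.mem_coe.mp hv)).2
    have h2 := Set.ncard_le_ncard h1 hf
    rw [Set.ncard_coe_finset] at h2
    have h3 : (boxCluster n ω u).ncard ≤ largest n ω :=
      Finset.le_sup (f := fun u => (boxCluster n ω u).ncard) hu
    omega

/-- The number of vertices of the largest open cluster of critical bond percolation in the box
`[-n,n]²` is of order `n^(91/48)`, with probability as close to one as we wish, uniformly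
in `n`. -/
theorem result : ∀ ε : ℝ, 0 < ε → ∃ c C : ℝ, 0 < c ∧ 0 < C ∧ ∀ n : ℕ, 1 ≤ n →
    1 - ε ≤ crit.real {ω | c * (n : ℝ) ^ (91 / 48 : ℝ) ≤ largest n ω ∧
      (largest n ω : ℝ) ≤ C * (n : ℝ) ^ (91 / 48 : ℝ)} := by
  intro ε hε
  obtain ⟨c, hc, hlow⟩ := Pool.Agent.W424.NC.big_lower (half_pos hε)
  obtain ⟨K, hK, hup⟩ := Pool.Agent.W424.NC.big_upper
  obtain ⟨C, hC⟩ : ∃ C : ℝ, C = (2 * K / ε) ^ (91 / 96 : ℝ) := ⟨_, rfl⟩
  have hC0 : 0 < C := by rw [hC]; positivity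
  refine ⟨c, C, hc, hC0, ?_⟩
  intro n hn
  have hn0 : (0:ℝ) < n := by exact_mod_cast hn
  have hnp : 0 < (n:ℝ) ^ (91 / 48 : ℝ) := by positivity
  obtain ⟨m, hm1, hcm, hPm⟩ := hlow n hn
  obtain ⟨M, hM⟩ : ∃ M : ℕ, M = ⌊C * (n : ℝ) ^ (91 / 48 : ℝ)⌋₊ + 1 := ⟨_, rfl⟩
  have hMlow : C * (n : ℝ) ^ (91 / 48 : ℝ) ≤ M := by
    rw [hM]
    push_cast
    exact (Nat.lt_floor_add_one _).le
  have hM1 : 1 ≤ M := by omega
  have law : ∀ k : ℕ, crit.real {ω | k ≤ largest n ω} =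
      H974.Pr (fun _ => (1/2:ℝ)) (H974.boxE n) (Pool.Agent.W424.NC.BigE n k) := by
    intro k
    have e : {ω | k ≤ largest n ω} =
        {ω | Pool.Agent.W424.NC.BigE n k (H974.FF (H974.boxE n) ω)} := by
      ext ω
      exact le_largest_iff ω
    rw [e]
    exact H974.law_event H974.hlf (H974.boxE n) (Pool.Agent.W424.NC.BigE n k)
  have h1 : crit.real {ω | m ≤ largest n ω} ≤
      crit.real {ω | c * (n : ℝ) ^ (91 / 48 : ℝ) ≤ largest n ω ∧
        (largest n ω : ℝ) ≤ C * (n : ℝ) ^ (91 / 48 : ℝ)} + crit.real {ω | M ≤ largest n ω} := by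
    have hfin : IsFiniteMeasure crit := by
      unfold crit
      infer_instance
    refine le_trans (measureReal_mono ?_) (measureReal_union_le _ _)
    intro ω hω
    have hω' : m ≤ largest n ω := hω
    have hω2 : (m:ℝ) ≤ largest n ω := by exact_mod_cast hω'
    by_cases h : M ≤ largest n ω
    · exact Or.inr h
    · left
      push Not at h
      refine ⟨hcm.trans hω2, ?_⟩
      have h2 : largest n ω ≤ ⌊C * (n : ℝ) ^ (91 / 48 : ℝ)⌋₊ := by omega
      exact (Nat.le_floor_iff (by positivity)).mp h2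
  have h2 : crit.real {ω | M ≤ largest n ω} ≤ ε / 2 := by
    rw [law M]
    refine (hup n M hn hM1).trans ?_
    have h3 : (M:ℝ) ^ (-(96/91) : ℝ) ≤ (C * (n : ℝ) ^ (91 / 48 : ℝ)) ^ (-(96/91) : ℝ) :=
      Real.rpow_le_rpow_of_nonpos (by positivity) hMlow (by norm_num)
    have h4 : (C * (n : ℝ) ^ (91 / 48 : ℝ)) ^ (-(96/91) : ℝ) =
        (2 * K / ε)⁻¹ * ((n:ℝ) ^ (2:ℝ))⁻¹ := by
      rw [Real.mul_rpow hC0.le hnp.le, hC, ← Real.rpow_mul (by positivity),
        ← Real.rpow_mul hn0.le, ← Real.rpow_neg hn0.le, ← Real.rpow_neg_one (2 * K / ε)]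
      norm_num
    have h5 : (n:ℝ) ^ (2:ℝ) = (n:ℝ) ^ 2 := Real.rpow_two _
    calc K * (n:ℝ) ^ 2 * (M:ℝ) ^ (-(96/91) : ℝ)
        ≤ K * (n:ℝ) ^ 2 * ((2 * K / ε)⁻¹ * ((n:ℝ) ^ (2:ℝ))⁻¹) := by
          rw [← h4]
          exact mul_le_mul_of_nonneg_left h3 (by positivity)
      _ = ε / 2 := by
          rw [h5]
          field_simp
  rw [law m] at h1
  linarith

end Pool.Agent.Results.MP_6bd702_pr.LargestCluster
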