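import Pool.Agent.W424.OD.Upper
import Pool.Agent.W424.KI.Fin

/-!
# The outer boundary of the scaling limits of the largest critical cluster has dimension at most 4/3

Critical bond percolation on `ℤ²` in the box `Λ_n = {0, …, n}²`.  `edges n` is the set of the
edges of `Λ_n` and `Largest n F v` says that the cluster of `v` has the largest Euclidean
diameter among the clusters of the configuration `F` (a set of open edges of the box).
`IsTrace n F v c` says that `c` is the closed lattice path tracing the boundary of the unbounded
component of the complement of the cluster of `v`, scaled by `1 / n`.  `Curve` is the space of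
curves, with the distance modulo increasing reparametrisation, `c.path : C(unitInterval, ℂ)` is a
parametrisation of `c`, and `lawOf n f` is the law of `f F` when all sets `F` of open edges of the
box are equally likely.  These definitions are those of the starting file
`Pool/Agent/Results/MP_6bd702_pr/LimitCurves.lean` (see there), which shows that weak limits exist.

The proof gives the sharp upper bound `C (d / k) ^ (2 / 3)` for the probability of three arms (open,
closed, closed) in every annulus of radii `d < k` (`Pool.Agent.W424.KI.u3`): the honest annulus is
compared with an annulus around the dislocation of a dislocated square lattice, where the three-leg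
event is computed exactly (helper801, helper808), and the estimate is extended to all annuli by
re-randomising a closed region (project KI).  Parts by helpers 15, 21, 32, 63, 98, 121, 143, 168,
174, 177, 216, 239, 290, 305, 320, 328, 333, 340, 347, 349, 352, 358, 377, 378, 382, 397, 424, 450,
461, 481, 499, 563, 591, 597, 612, 636, 658, 699, 723, 736, 737, 756, 782, 790, 800, 801, 808, 839,
853, 880, 906, 915, 919, 923, 925, 940, 946, 956.
-/

set_option autoImplicit false

namespace Pool.Agent.Results.MP_6bd702_pr.OuterBoundaryUpper

open H342L H342T H342P.Plain MeasureTheory Filter Topology

/-- The unbounded component of the complement of the compact set `K`: the points of the complement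
whose connected component is not bounded. -/
def unboundedComponent (K : Set ℂ) : Set ℂ :=
  {z | z ∈ Kᶜ ∧ ¬ Bornology.IsBounded (connectedComponentIn Kᶜ z)}

/-- The outer boundary of the curve `c`: the boundary of the unbounded component of the complement
of its trace. -/
def outerBoundary (c : Curve) : Set ℂ := frontier (unboundedComponent (Set.range c.path))

/-- Let `C_n` be a cluster of largest Euclidean diameter (`sel` chooses one of them, by any rule) and
`γ_n` the closed lattice path tracing its outer boundary, divided by `n`.  If the law of `γ_n`
converges along some sequence of scales, then, almost surely with respect to the limit, the outer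
boundary of the limit curve has Hausdorff dimension at most `4 / 3`. -/
theorem result (sel : (n : ℕ) → Finset Edge → ℤ × ℤ)
    (hsel : ∀ n F, 0 < n → F ⊆ edges n → Largest n F (sel n F))
    (γ : (n : ℕ) → Finset Edge → Curve)
    (hγ : ∀ n F, 0 < n → F ⊆ edges n → IsTrace n F (sel n F) (γ n F))
    (k : ℕ → ℕ) (hk : Tendsto k atTop atTop) (μ : ProbabilityMeasure Curve)
    (hμ : Tendsto (fun i => lawOf (k i) (γ (k i))) atTop (𝓝 μ)) :
    ∀ᵐ c : Curve ∂(μ : Measure Curve), dimH (outerBoundary c) ≤ 4 / 3 :=
  Pool.Agent.W424.OD.t_UL3 Pool.Agent.W424.KI.u3 sel γ ⟨hsel, hγ⟩ k hk μ hμ

end Pool.Agent.Results.MP_6bd702_pr.OuterBoundaryUpper
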